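import Mathlib

/-!
# Rings for the determinant argument modulo two

For `n = 2 ^ a * m` with `m` odd there is a domain with a primitive `n`-th root of unity and a homomorphism to a
field of characteristic two which sends it to a primitive `m`-th root of unity.
-/

set_option autoImplicit false

namespace Pool.Agent.H168.SN

open Polynomial Finset Equiv

/-- a domain with a primitive root of order `2 ^ a * m`, reduced modulo two -/
theorem exists_ring (a m : ℕ) (hm : Odd m) :
    ∃ (R K : Type) (_ : CommRing R) (_ : IsDomain R) (_ : Field K) (_ : CharP K 2) (φ : R →+* K) (ζ : R),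
      IsPrimitiveRoot ζ (2 ^ a * m) ∧ IsPrimitiveRoot (φ ζ) m := by
  have hm0 : 0 < m := hm.pos
  have hn0 : 0 < 2 ^ a * m := by positivity
  have : NeZero m := ⟨hm0.ne'⟩
  have : Fact (Nat.Prime 2) := ⟨Nat.prime_two⟩
  let K := AlgebraicClosure (ZMod 2)
  have hK : CharP K 2 := inferInstance
  have hmK : NeZero (m : K) := by
    refine ⟨fun h => ?_⟩
    rw [CharP.cast_eq_zero_iff K 2 m] at h
    exact (Nat.not_even_iff_odd.2 hm) (even_iff_two_dvd.2 h)
  obtain ⟨η, hη⟩ : ∃ η : K, IsRoot (cyclotomic m K) η := by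
    apply IsAlgClosed.exists_root
    rw [degree_cyclotomic]
    have := Nat.totient_pos.2 hm0
    exact_mod_cast this.ne'
  have hηp : IsPrimitiveRoot η m := isRoot_cyclotomic_iff.1 hη
  have hηr : IsRoot (cyclotomic (2 ^ a * m) K) η :=
    (isRoot_cyclotomic_prime_pow_mul_iff_of_charP (R := K) (p := 2) (k := a)).2 hηp
  have hprime : Prime (cyclotomic (2 ^ a * m) ℤ) := (cyclotomic.irreducible hn0).prime
  have : IsDomain (AdjoinRoot (cyclotomic (2 ^ a * m) ℤ)) := AdjoinRoot.isDomain_of_prime hprime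
  have hdeg : (cyclotomic (2 ^ a * m) ℤ).degree ≠ 0 := by
    rw [degree_cyclotomic]
    have := Nat.totient_pos.2 hn0
    exact_mod_cast this.ne'
  have hinj := AdjoinRoot.of.injective_of_degree_ne_zero hdeg
  have : NeZero ((2 ^ a * m : ℕ) : AdjoinRoot (cyclotomic (2 ^ a * m) ℤ)) := by
    refine ⟨fun h => ?_⟩
    have h2 : AdjoinRoot.of (cyclotomic (2 ^ a * m) ℤ) ((2 ^ a * m : ℕ) : ℤ) = 0 := by
      rw [map_natCast]; exact h
    have h3 : (((2 ^ a * m : ℕ) : ℤ)) = 0 := hinj (by rw [h2, map_zero])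
    have h4 : (2 ^ a * m : ℕ) = 0 := by exact_mod_cast h3
    omega
  have he : eval₂ (Int.castRingHom K) η (cyclotomic (2 ^ a * m) ℤ) = 0 := by
    rw [eval₂_eq_eval_map, map_cyclotomic_int]
    exact hηr
  refine ⟨AdjoinRoot (cyclotomic (2 ^ a * m) ℤ), K, inferInstance, inferInstance, inferInstance, hK,
    AdjoinRoot.lift (Int.castRingHom K) η he, AdjoinRoot.root _, ?_, ?_⟩
  · have h := AdjoinRoot.isRoot_root (cyclotomic (2 ^ a * m) ℤ)
    rw [map_cyclotomic] at h
    exact isRoot_cyclotomic_iff.1 h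
  · rw [AdjoinRoot.lift_root]
    exact hηp

/-- the signed sum of the determinants over all permutations -/
theorem sum_det {R : Type*} [CommRing R] {k : ℕ} (x y : Fin k → R) :
    ∑ σ : Perm (Fin k), (((Perm.sign σ : ℤˣ) : ℤ) : R) *
        (Matrix.vandermonde (fun i => x (σ i) * y i)).det
      = (Matrix.vandermonde x).det * (Matrix.vandermonde y).permanent := by
  have h1 : ∀ σ : Perm (Fin k), (((Perm.sign σ : ℤˣ) : ℤ) : R) *
        (Matrix.vandermonde (fun i => x (σ i) * y i)).det
      = ∑ τ : Perm (Fin k), (((Perm.sign (σ * τ) : ℤˣ) : ℤ) : R) *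
          (∏ i, x ((σ * τ) i) ^ (i : ℕ)) * ∏ i, y (τ i) ^ (i : ℕ) := by
    intro σ
    rw [Matrix.det_apply', Finset.mul_sum]
    refine Finset.sum_congr rfl fun τ _ => ?_
    simp only [Matrix.vandermonde_apply, mul_pow, Finset.prod_mul_distrib, Perm.sign_mul, Units.val_mul,
      Int.cast_mul, Perm.mul_apply]
    ring
  rw [Finset.sum_congr rfl fun σ _ => h1 σ, Finset.sum_comm]
  have h2 : ∀ τ : Perm (Fin k), (∑ σ : Perm (Fin k), (((Perm.sign (σ * τ) : ℤˣ) : ℤ) : R) *
          (∏ i, x ((σ * τ) i) ^ (i : ℕ)) * ∏ i, y (τ i) ^ (i : ℕ))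
      = (Matrix.vandermonde x).det * ∏ i, y (τ i) ^ (i : ℕ) := by
    intro τ
    rw [← Finset.sum_mul, Matrix.det_apply']
    congr 1
    exact Fintype.sum_equiv (Equiv.mulRight τ) _ _ (fun σ => by simp [Matrix.vandermonde_apply])
  rw [Finset.sum_congr rfl fun τ _ => h2 τ, ← Finset.mul_sum, Matrix.permanent]
  simp only [Matrix.vandermonde_apply]

/-- in characteristic two the permanent is the determinant -/
theorem permanent_eq_det {K : Type*} [Field K] [CharP K 2] {k : ℕ} (M : Matrix (Fin k) (Fin k) K) :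
    M.permanent = M.det := by
  rw [Matrix.permanent, Matrix.det_apply']
  refine Finset.sum_congr rfl fun σ _ => ?_
  rcases Int.units_eq_one_or (Perm.sign σ) with h | h <;> rw [h] <;> simp [CharTwo.neg_eq]

end Pool.Agent.H168.SN
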