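import Mathlib
import Pool.Agent.H168.SN.Ring

/-!
# Determinants with a gap and the weighted signed sum
-/

set_option autoImplicit false

namespace Pool.Agent.H168.SN

open Polynomial Finset Equiv

/-- a domain with a primitive root of order `2 ^ a * m`, reduced modulo two to a given root of unity -/
theorem exists_ring' (a m : ℕ) (hm : Odd m) (η : AlgebraicClosure (ZMod 2)) (hη : IsPrimitiveRoot η m) :
    ∃ (R : Type) (_ : CommRing R) (_ : IsDomain R) (φ : R →+* AlgebraicClosure (ZMod 2)) (ζ : R),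
      IsPrimitiveRoot ζ (2 ^ a * m) ∧ φ ζ = η := by
  have hm0 : 0 < m := hm.pos
  have hn0 : 0 < 2 ^ a * m := by positivity
  have : NeZero m := ⟨hm0.ne'⟩
  have : Fact (Nat.Prime 2) := ⟨Nat.prime_two⟩
  have hmK : NeZero (m : AlgebraicClosure (ZMod 2)) := by
    refine ⟨fun h => ?_⟩
    rw [CharP.cast_eq_zero_iff (AlgebraicClosure (ZMod 2)) 2 m] at h
    exact (Nat.not_even_iff_odd.2 hm) (even_iff_two_dvd.2 h)
  have hηr : IsRoot (cyclotomic (2 ^ a * m) (AlgebraicClosure (ZMod 2))) η :=
    (isRoot_cyclotomic_prime_pow_mul_iff_of_charP (R := AlgebraicClosure (ZMod 2)) (p := 2) (k := a)).2 hη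
  have hprime : Prime (cyclotomic (2 ^ a * m) ℤ) := (cyclotomic.irreducible hn0).prime
  have : IsDomain (AdjoinRoot (cyclotomic (2 ^ a * m) ℤ)) := AdjoinRoot.isDomain_of_prime hprime
  have hdeg : (cyclotomic (2 ^ a * m) ℤ).degree ≠ 0 := by
    rw [degree_cyclotomic]
    have := Nat.totient_pos.2 hn0
    exact_mod_cast this.ne'
  have hinj := AdjoinRoot.of.injective_of_degree_ne_zero hdeg
  have : NeZero ((2 ^ a * m : ℕ) : AdjoinRoot (cyclotomic (2 ^ a * m) ℤ)) := by
    refine ⟨fun h => ?_⟩
    have h2 : AdjoinRoot.of (cyclotomic (2 ^ a * m) ℤ) ((2 ^ a * m : ℕ) : ℤ) = 0 := by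
      rw [map_natCast]; exact h
    have h3 : (((2 ^ a * m : ℕ) : ℤ)) = 0 := hinj (by rw [h2, map_zero])
    have h4 : (2 ^ a * m : ℕ) = 0 := by exact_mod_cast h3
    omega
  have he : eval₂ (Int.castRingHom (AlgebraicClosure (ZMod 2))) η (cyclotomic (2 ^ a * m) ℤ) = 0 := by
    rw [eval₂_eq_eval_map, map_cyclotomic_int]
    exact hηr
  refine ⟨AdjoinRoot (cyclotomic (2 ^ a * m) ℤ), inferInstance, inferInstance,
    AdjoinRoot.lift (Int.castRingHom (AlgebraicClosure (ZMod 2))) η he, AdjoinRoot.root _, ?_, ?_⟩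
  · have h := AdjoinRoot.isRoot_root (cyclotomic (2 ^ a * m) ℤ)
    rw [map_cyclotomic] at h
    exact isRoot_cyclotomic_iff.1 h
  · rw [AdjoinRoot.lift_root]

/-- the Vandermonde matrix with the columns of `J` shifted by one -/
def shiftV {R : Type*} [CommRing R] {k : ℕ} (x : Fin k → R) (J : Finset (Fin k)) :
    Matrix (Fin k) (Fin k) R :=
  Matrix.of fun i j => x i ^ ((j : ℕ) + if j ∈ J then 1 else 0)

/-- the top `k - s` indices -/
def top (k s : ℕ) : Finset (Fin k) := univ.filter fun j => s ≤ (j : ℕ)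

theorem card_top {k s : ℕ} (hs : s ≤ k) : (top k s).card = k - s := by
  have h : (top k s).map Fin.valEmbedding = Finset.Ico s k := by
    ext z
    simp only [top, mem_map, mem_filter, mem_univ, true_and, Fin.valEmbedding_apply, mem_Ico]
    constructor
    · rintro ⟨j, hj, rfl⟩; exact ⟨hj, j.2⟩
    · rintro ⟨h1, h2⟩; exact ⟨⟨z, h2⟩, h1, rfl⟩
  rw [← card_map Fin.valEmbedding, h, Nat.card_Ico]

/-- only the top set gives a nonzero determinant -/
theorem det_shiftV {R : Type*} [CommRing R] {k s : ℕ} (hs : s ≤ k) (x : Fin k → R) (J : Finset (Fin k))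
    (hJ : J.card = k - s) (hne : J ≠ top k s) : (shiftV x J).det = 0 := by
  classical
  by_cases hcl : ∀ j ∈ J, ∀ j' : Fin k, (j' : ℕ) = (j : ℕ) + 1 → j' ∈ J
  · exfalso
    apply hne
    -- J is closed upwards
    have hup : ∀ j ∈ J, ∀ d : ℕ, ∀ j' : Fin k, (j' : ℕ) = (j : ℕ) + d → j' ∈ J := by
      intro j hj d
      induction d with
      | zero => intro j' hj'; have : j' = j := Fin.ext (by omega); rw [this]; exact hj
      | succ d ih =>
        intro j' hj'
        have h1 : (j : ℕ) + d < k := by have := j'.2; omega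
        exact hcl ⟨(j : ℕ) + d, h1⟩ (ih _ rfl) j' (by simp only; omega)
    have hsub : top k s ⊆ J ∨ J ⊆ top k s := by
      by_cases h : top k s ⊆ J
      · exact Or.inl h
      · right
        rw [Finset.not_subset] at h
        obtain ⟨i, hi, hiJ⟩ := h
        intro j hj
        rw [top, mem_filter] at hi ⊢
        refine ⟨mem_univ _, ?_⟩
        by_contra hlt
        exact hiJ (hup j hj ((i : ℕ) - (j : ℕ)) i (by omega))
    rcases hsub with h | h
    · exact (Finset.eq_of_subset_of_card_le h (by rw [hJ, card_top hs])).symm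
    · exact Finset.eq_of_subset_of_card_le h (by rw [hJ, card_top hs])
  · push Not at hcl
    obtain ⟨j, hj, j', hj', hj'J⟩ := hcl
    refine Matrix.det_zero_of_column_eq (i := j) (j := j') (fun h => ?_) (fun i => ?_)
    · rw [h] at hj'; omega
    · simp only [shiftV, Matrix.of_apply, hj, hj'J, if_true, if_false, hj', add_zero]

/-- the elementary symmetric function -/
def esy {R : Type*} [CommRing R] {k : ℕ} (t : ℕ) (x : Fin k → R) : R :=
  ∑ S ∈ powersetCard t (univ : Finset (Fin k)), ∏ i ∈ S, x i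

theorem esy_mul_det {R : Type*} [CommRing R] {k s : ℕ} (hs : s ≤ k) (x : Fin k → R) :
    esy (k - s) x * (Matrix.vandermonde x).det = (shiftV x (top k s)).det := by
  classical
  have hsum : esy (k - s) x * (Matrix.vandermonde x).det
      = ∑ J ∈ powersetCard (k - s) (univ : Finset (Fin k)), (shiftV x J).det := by
    rw [esy, Matrix.det_apply', Finset.mul_sum]
    simp only [Matrix.det_apply']
    rw [Finset.sum_comm]
    refine Finset.sum_congr rfl fun ρ _ => ?_
    rw [Finset.sum_mul]
    refine Finset.sum_bij' (fun S _ => S.map ρ.symm.toEmbedding) (fun J _ => J.map ρ.toEmbedding) ?_ ?_ ?_ ?_ ?_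
    · intro S hS
      rw [mem_powersetCard] at hS ⊢
      exact ⟨subset_univ _, by rw [card_map]; exact hS.2⟩
    · intro S hS
      rw [mem_powersetCard] at hS ⊢
      exact ⟨subset_univ _, by rw [card_map]; exact hS.2⟩
    · intro S _
      ext z; simp
    · intro S _
      ext z; simp
    · intro S _
      simp only [shiftV, Matrix.of_apply, Matrix.vandermonde_apply, pow_add, Finset.prod_mul_distrib]
      have h1 : ∏ i ∈ S, x i = ∏ j, x (ρ j) ^ (if j ∈ S.map ρ.symm.toEmbedding then 1 else 0) := by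
        rw [← Equiv.prod_comp ρ.symm]
        simp only [Equiv.apply_symm_apply]
        rw [← Finset.prod_subset (subset_univ S)]
        · refine Finset.prod_congr rfl fun i hi => ?_
          simp [hi]
        · intro i _ hi
          simp [hi]
      rw [h1]
      ring
  rw [hsum]
  refine Finset.sum_eq_single_of_mem _ ?_ ?_
  · rw [mem_powersetCard]; exact ⟨subset_univ _, card_top hs⟩
  · intro J hJ hne
    exact det_shiftV hs x J (mem_powersetCard.1 hJ).2 hne

/-- the Vandermonde matrix with the entries outside the two diagonal blocks replaced by zero -/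
def blockV {R : Type*} [CommRing R] {k : ℕ} (s : ℕ) (y : Fin k → R) : Matrix (Fin k) (Fin k) R :=
  Matrix.of fun i j => if (s ≤ (i : ℕ) ↔ s ≤ (j : ℕ)) then y i ^ (j : ℕ) else 0

theorem wsum_det {R : Type*} [CommRing R] {k s : ℕ} (hs : s ≤ k) (x y : Fin k → R) :
    ∑ σ : Perm (Fin k), (((Perm.sign σ : ℤˣ) : ℤ) : R) *
        (∏ i : Fin k, x (σ i) ^ (if s ≤ (i : ℕ) then 1 else 0)) *
        (Matrix.vandermonde (fun i => x (σ i) * y i)).det
      = (shiftV x (top k s)).det * (blockV s y).permanent := by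
  classical
  have h1 : ∀ σ : Perm (Fin k), (((Perm.sign σ : ℤˣ) : ℤ) : R) *
        (∏ i : Fin k, x (σ i) ^ (if s ≤ (i : ℕ) then 1 else 0)) *
        (Matrix.vandermonde (fun i => x (σ i) * y i)).det
      = ∑ τ : Perm (Fin k), (((Perm.sign (σ * τ) : ℤˣ) : ℤ) : R) *
          (∏ j : Fin k, x ((σ * τ) j) ^ ((j : ℕ) + if s ≤ (τ j : ℕ) then 1 else 0)) *
          ∏ j, y (τ j) ^ (j : ℕ) := by
    intro σ
    rw [Matrix.det_apply', Finset.mul_sum]
    refine Finset.sum_congr rfl fun τ _ => ?_
    have h2 : (∏ i : Fin k, x (σ i) ^ (if s ≤ (i : ℕ) then 1 else 0))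
        = ∏ j : Fin k, x (σ (τ j)) ^ (if s ≤ (τ j : ℕ) then 1 else 0) :=
      (Equiv.prod_comp τ (fun i : Fin k => x (σ i) ^ (if s ≤ (i : ℕ) then 1 else 0))).symm
    rw [h2]
    simp only [Matrix.vandermonde_apply, mul_pow, Finset.prod_mul_distrib, Perm.sign_mul, Units.val_mul,
      Int.cast_mul, Perm.mul_apply, pow_add]
    ring
  rw [Finset.sum_congr rfl fun σ _ => h1 σ, Finset.sum_comm]
  have h2 : ∀ τ : Perm (Fin k), (∑ σ : Perm (Fin k), (((Perm.sign (σ * τ) : ℤˣ) : ℤ) : R) *
          (∏ j : Fin k, x ((σ * τ) j) ^ ((j : ℕ) + if s ≤ (τ j : ℕ) then 1 else 0)) *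
          ∏ j, y (τ j) ^ (j : ℕ))
      = (shiftV x (top k s)).det * ∏ j, blockV s y (τ j) j := by
    intro τ
    rw [← Finset.sum_mul]
    have h3 : ∑ σ : Perm (Fin k), (((Perm.sign (σ * τ) : ℤˣ) : ℤ) : R) *
          (∏ j : Fin k, x ((σ * τ) j) ^ ((j : ℕ) + if s ≤ (τ j : ℕ) then 1 else 0))
        = (shiftV x (univ.filter fun j => s ≤ (τ j : ℕ))).det := by
      rw [Matrix.det_apply']
      refine Fintype.sum_equiv (Equiv.mulRight τ) _ _ (fun σ => ?_)
      simp only [shiftV, Matrix.of_apply, mem_filter, mem_univ, true_and, Equiv.coe_mulRight]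
    rw [h3]
    by_cases hJ : (univ.filter fun j => s ≤ (τ j : ℕ)) = top k s
    · rw [hJ]
      congr 1
      refine Finset.prod_congr rfl fun j _ => ?_
      have h4 : (s ≤ (τ j : ℕ) ↔ s ≤ (j : ℕ)) := by
        have := Finset.ext_iff.1 hJ j
        simpa [top] using this
      simp only [blockV, Matrix.of_apply, h4, if_true]
    · have h5 : (univ.filter fun j => s ≤ (τ j : ℕ)).card = k - s := by
        rw [← card_top hs]
        refine Finset.card_bij (fun j _ => τ j) ?_ ?_ ?_
        · intro j hj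
          simpa [top] using hj
        · intro i _ j _ h
          exact τ.injective h
        · intro j hj
          refine ⟨τ.symm j, ?_, by simp⟩
          simpa [top] using hj
      rw [det_shiftV hs x _ h5 hJ, zero_mul]
      have h6 : ∃ j, ¬ (s ≤ (τ j : ℕ) ↔ s ≤ (j : ℕ)) := by
        by_contra hcon
        push Not at hcon
        apply hJ
        ext j
        simpa [top] using hcon j
      obtain ⟨j, hj⟩ := h6
      rw [Finset.prod_eq_zero (mem_univ j), mul_zero]
      simp only [blockV, Matrix.of_apply, hj, if_false]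
  rw [Finset.sum_congr rfl fun τ _ => h2 τ, ← Finset.mul_sum, Matrix.permanent]

/-- the block matrix is regular when the `y i` are nonzero and different inside the two blocks -/
theorem det_blockV_ne_zero {K : Type*} [Field K] {k s : ℕ} (hs : s ≤ k) (y : Fin k → K)
    (h0 : ∀ i, y i ≠ 0)
    (h1 : ∀ i j : Fin k, (i : ℕ) < s → (j : ℕ) < s → y i = y j → i = j)
    (h2 : ∀ i j : Fin k, s ≤ (i : ℕ) → s ≤ (j : ℕ) → y i = y j → i = j) :
    (blockV s y).det ≠ 0 := by
  classical
  obtain ⟨t, rfl⟩ := Nat.exists_eq_add_of_le hs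
  have hM : (blockV s y).submatrix finSumFinEquiv finSumFinEquiv
      = Matrix.fromBlocks (Matrix.vandermonde (fun i : Fin s => y (Fin.castAdd t i))) 0 0
        (Matrix.diagonal (fun i : Fin t => y (Fin.natAdd s i) ^ s) *
          Matrix.vandermonde (fun i : Fin t => y (Fin.natAdd s i))) := by
    ext i j
    rcases i with i | i <;> rcases j with j | j
    · have hi := i.2
      have hj := j.2
      simp [blockV, Matrix.fromBlocks, Nat.not_le.2 hi, Nat.not_le.2 hj, Matrix.vandermonde_apply]
    · have hi := i.2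
      simp [blockV, Matrix.fromBlocks, Nat.not_le.2 hi]
    · have hj := j.2
      simp [blockV, Matrix.fromBlocks, Nat.not_le.2 hj]
    · simp [blockV, Matrix.fromBlocks, Matrix.vandermonde_apply, pow_add]
  rw [← Matrix.det_submatrix_equiv_self finSumFinEquiv, hM, Matrix.det_fromBlocks_zero₂₁,
    Matrix.det_mul, Matrix.det_diagonal]
  refine mul_ne_zero ?_ (mul_ne_zero ?_ ?_)
  · rw [Matrix.det_vandermonde_ne_zero_iff]
    intro i j hij
    have := h1 (Fin.castAdd t i) (Fin.castAdd t j) (by simp) (by simp) hij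
    exact Fin.castAdd_injective _ _ this
  · exact Finset.prod_ne_zero_iff.2 fun i _ => pow_ne_zero _ (h0 _)
  · rw [Matrix.det_vandermonde_ne_zero_iff]
    intro i j hij
    have := h2 (Fin.natAdd s i) (Fin.natAdd s j) (by simp) (by simp) hij
    exact Fin.natAdd_injective _ _ this

end Pool.Agent.H168.SN
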