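import Mathlib
import Pool.Agent.H168.SN.Ring

/-!
# Transversals when the columns are distinct modulo the odd part
-/

set_option autoImplicit false

namespace Pool.Agent.H168.SN

open Finset Equiv

/-- a permutation with pairwise different sums gives a map -/
theorem exists_map_of_perm {G : Type*} [AddCommGroup G] (A B : Finset G) {k : ℕ}
    (eA : Fin k ≃ ↥A) (eB : Fin k ≃ ↥B) (σ : Perm (Fin k))
    (h : Function.Injective (fun i => (eA (σ i) : G) + (eB i : G))) :
    ∃ f : G → G, Set.BijOn f (A : Set G) (B : Set G) ∧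
      Set.InjOn (fun a => a + f a) (A : Set G) := by
  classical
  let f : G → G := fun z => if hz : z ∈ A then (eB (σ.symm (eA.symm ⟨z, hz⟩)) : G) else 0
  have hf : ∀ i, f (eA (σ i) : G) = (eB i : G) := by
    intro i
    have hz : (eA (σ i) : G) ∈ A := (eA (σ i)).2
    simp only [f, hz, dif_pos, Subtype.coe_eta, Equiv.symm_apply_apply]
  have hsurj : ∀ z ∈ A, ∃ i, z = (eA (σ i) : G) := by
    intro z hz
    exact ⟨σ.symm (eA.symm ⟨z, hz⟩), by simp⟩
  refine ⟨f, ⟨?_, ?_, ?_⟩, ?_⟩
  · intro z hz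
    obtain ⟨i, rfl⟩ := hsurj z hz
    rw [hf i]; exact (eB i).2
  · intro z hz w hw hzw
    obtain ⟨i, rfl⟩ := hsurj z hz
    obtain ⟨j, rfl⟩ := hsurj w hw
    rw [hf i, hf j] at hzw
    have : i = j := eB.injective (Subtype.ext hzw)
    rw [this]
  · intro b hb
    refine ⟨(eA (σ (eB.symm ⟨b, hb⟩)) : G), (eA _).2, ?_⟩
    rw [hf]; simp
  · intro z hz w hw hzw
    obtain ⟨i, rfl⟩ := hsurj z hz
    obtain ⟨j, rfl⟩ := hsurj w hw
    simp only [hf i, hf j] at hzw
    have : i = j := h hzw
    rw [this]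

/-- the main case: the elements of `B` are pairwise incongruent modulo the odd part -/
theorem main (a m : ℕ) (hm : Odd m) (A B : Finset (ZMod (2 ^ a * m))) (hcard : A.card = B.card)
    (hB : Set.InjOn (ZMod.castHom (dvd_mul_left m (2 ^ a)) (ZMod m)) (B : Set (ZMod (2 ^ a * m)))) :
    ∃ f : ZMod (2 ^ a * m) → ZMod (2 ^ a * m),
      Set.BijOn f (A : Set (ZMod (2 ^ a * m))) (B : Set (ZMod (2 ^ a * m))) ∧
      Set.InjOn (fun z => z + f z) (A : Set (ZMod (2 ^ a * m))) := by
  classical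
  have hm0 : 0 < m := hm.pos
  have hn0 : 0 < 2 ^ a * m := by positivity
  have : NeZero (2 ^ a * m) := ⟨hn0.ne'⟩
  have : NeZero m := ⟨hm0.ne'⟩
  obtain ⟨R, K, _, _, _, _, φ, ζ, hζ, hφ⟩ := exists_ring a m hm
  let eA : Fin A.card ≃ ↥A := A.equivFin.symm
  let eB : Fin A.card ≃ ↥B := (finCongr hcard).trans B.equivFin.symm
  let x : Fin A.card → R := fun i => ζ ^ ((eA i : ZMod (2 ^ a * m)).val)
  let y : Fin A.card → R := fun i => ζ ^ ((eB i : ZMod (2 ^ a * m)).val)
  by_contra hno
  have hdet : ∀ σ : Perm (Fin A.card), (Matrix.vandermonde (fun i => x (σ i) * y i)).det = 0 := by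
    intro σ
    rw [Matrix.det_vandermonde_eq_zero_iff]
    by_contra hcon
    push Not at hcon
    refine hno (exists_map_of_perm A B eA eB σ ?_)
    intro i j hij
    apply hcon i j
    have key : ∀ i, x (σ i) * y i
        = ζ ^ (((eA (σ i) : ZMod (2 ^ a * m)) + (eB i : ZMod (2 ^ a * m))).val) := by
      intro i
      simp only [x, y]
      rw [← pow_add, ZMod.val_add, ← pow_eq_pow_mod _ hζ.pow_eq_one]
    simp only at hij
    rw [key i, key j, hij]
  have hsum := sum_det x y
  rw [Finset.sum_eq_zero fun σ _ => by rw [hdet σ, mul_zero]] at hsum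
  have hx : (Matrix.vandermonde x).det ≠ 0 := by
    rw [Matrix.det_vandermonde_ne_zero_iff]
    intro i j hij
    have h1 := hζ.pow_inj (ZMod.val_lt _) (ZMod.val_lt _) hij
    exact eA.injective (Subtype.ext (ZMod.val_injective _ h1))
  have hper : (Matrix.vandermonde y).permanent = 0 := by
    rcases mul_eq_zero.1 hsum.symm with h | h
    · exact absurd h hx
    · exact h
  have hper2 : (Matrix.vandermonde (fun i => φ (y i))).permanent = 0 := by
    have h := congrArg φ hper
    rw [map_zero] at h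
    rw [← h]
    simp only [Matrix.permanent, Matrix.vandermonde_apply, map_sum, map_prod, map_pow]
  rw [permanent_eq_det, Matrix.det_vandermonde_eq_zero_iff] at hper2
  obtain ⟨i, j, hij, hne⟩ := hper2
  apply hne
  simp only [y, map_pow] at hij
  rw [pow_eq_pow_mod _ hφ.pow_eq_one, pow_eq_pow_mod (eB j : ZMod (2 ^ a * m)).val hφ.pow_eq_one] at hij
  have h1 := hφ.pow_inj (Nat.mod_lt _ hm0) (Nat.mod_lt _ hm0) hij
  have h2 : ((eB i : ZMod (2 ^ a * m)).val : ZMod m) = ((eB j : ZMod (2 ^ a * m)).val : ZMod m) :=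
    (ZMod.natCast_eq_natCast_iff' _ _ _).2 h1
  rw [ZMod.natCast_val, ZMod.natCast_val] at h2
  have h3 := hB (eB i).2 (eB j).2 (by simpa [ZMod.castHom_apply] using h2)
  exact eB.injective (Subtype.ext h3)

end Pool.Agent.H168.SN
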