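import Mathlib
import Pool.Agent.H168.SN.Main
import Pool.Agent.H168.SN.Gap

/-!
# The criterion with elementary symmetric functions
-/

set_option autoImplicit false

namespace Pool.Agent.H168.SN

open Finset Equiv

theorem cast_eq_of_pow_eq {K : Type*} [Field K] (a m : ℕ) (hm : 0 < m) (η : K) (hη : IsPrimitiveRoot η m)
    (u v : ZMod (2 ^ a * m)) (h : η ^ u.val = η ^ v.val) :
    ZMod.castHom (dvd_mul_left m (2 ^ a)) (ZMod m) u = ZMod.castHom (dvd_mul_left m (2 ^ a)) (ZMod m) v := by
  have hn0 : 0 < 2 ^ a * m := by positivity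
  have : NeZero (2 ^ a * m) := ⟨hn0.ne'⟩
  have : NeZero m := ⟨hm.ne'⟩
  rw [pow_eq_pow_mod _ hη.pow_eq_one, pow_eq_pow_mod v.val hη.pow_eq_one] at h
  have h1 := hη.pow_inj (Nat.mod_lt _ hm) (Nat.mod_lt _ hm) h
  have h2 : (u.val : ZMod m) = (v.val : ZMod m) := (ZMod.natCast_eq_natCast_iff' _ _ _).2 h1
  rw [ZMod.natCast_val, ZMod.natCast_val] at h2
  simpa [ZMod.castHom_apply] using h2

/-- an enumeration of `B` which lists `B \ T` first -/
theorem exists_enum {G : Type*} [DecidableEq G] (B T : Finset G) (hT : T ⊆ B) :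
    ∃ e : Fin ((B \ T).card + T.card) ≃ ↥B,
      (∀ i : Fin ((B \ T).card + T.card), (i : ℕ) < (B \ T).card → (e i : G) ∈ B \ T) ∧
      (∀ i : Fin ((B \ T).card + T.card), (B \ T).card ≤ (i : ℕ) → (e i : G) ∈ T) := by
  classical
  let E : ↥(B \ T) ⊕ ↥T ≃ ↥B :=
    (Equiv.Finset.union (B \ T) T sdiff_disjoint).trans
      (Equiv.subtypeEquivRight fun x => by rw [sdiff_union_of_subset hT])
  refine ⟨finSumFinEquiv.symm.trans ((Equiv.sumCongr (B \ T).equivFin.symm T.equivFin.symm).trans E), ?_, ?_⟩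
  · intro i
    refine Fin.addCases (fun i => ?_) (fun i => ?_) i
    · intro _
      simp only [Equiv.trans_apply, finSumFinEquiv_symm_apply_castAdd, Equiv.sumCongr_apply, Sum.map_inl, E,
        Equiv.Finset.union, Equiv.subtypeEquivRight_apply_coe]
      exact ((B \ T).equivFin.symm i).2
    · intro h
      simp at h
  · intro i
    refine Fin.addCases (fun i => ?_) (fun i => ?_) i
    · intro h
      have := i.2
      simp only [Fin.val_castAdd] at h
      omega
    · intro _
      simp only [Equiv.trans_apply, finSumFinEquiv_symm_apply_natAdd, Equiv.sumCongr_apply, Sum.map_inr, E,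
        Equiv.Finset.union, Equiv.subtypeEquivRight_apply_coe]
      exact (T.equivFin.symm i).2

/-- the criterion -/
theorem main2 (a m : ℕ) (hm : Odd m) (A B T : Finset (ZMod (2 ^ a * m))) (hcard : A.card = B.card) (hT : T ⊆ B)
    (h1 : Set.InjOn (ZMod.castHom (dvd_mul_left m (2 ^ a)) (ZMod m)) (T : Set (ZMod (2 ^ a * m))))
    (h2 : Set.InjOn (ZMod.castHom (dvd_mul_left m (2 ^ a)) (ZMod m)) ((B \ T : Finset _) : Set (ZMod (2 ^ a * m))))
    (η : AlgebraicClosure (ZMod 2)) (hη : IsPrimitiveRoot η m)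
    (he : (∑ S ∈ powersetCard T.card A, ∏ z ∈ S, η ^ z.val) ≠ 0) :
    ∃ f : ZMod (2 ^ a * m) → ZMod (2 ^ a * m),
      Set.BijOn f (A : Set (ZMod (2 ^ a * m))) (B : Set (ZMod (2 ^ a * m))) ∧
      Set.InjOn (fun z => z + f z) (A : Set (ZMod (2 ^ a * m))) := by
  classical
  have hm0 : 0 < m := hm.pos
  have hn0 : 0 < 2 ^ a * m := by positivity
  have : NeZero (2 ^ a * m) := ⟨hn0.ne'⟩
  have : NeZero m := ⟨hm0.ne'⟩
  obtain ⟨R, _, _, φ, ζ, hζ, hφ⟩ := exists_ring' a m hm η hη
  obtain ⟨s, hs, eB, hlow, hhigh⟩ : ∃ (s : ℕ) (_ : s = (B \ T).card) (eB : Fin (s + T.card) ≃ ↥B),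
      (∀ i : Fin (s + T.card), (i : ℕ) < s → (eB i : ZMod (2 ^ a * m)) ∈ B \ T) ∧
      (∀ i : Fin (s + T.card), s ≤ (i : ℕ) → (eB i : ZMod (2 ^ a * m)) ∈ T) :=
    ⟨_, rfl, exists_enum B T hT⟩
  have hAcard : s + T.card = A.card := by
    rw [hcard, hs, card_sdiff_add_card_eq_card hT]
  let eA : Fin (s + T.card) ≃ ↥A := (finCongr hAcard).trans A.equivFin.symm
  let x : Fin (s + T.card) → R := fun i => ζ ^ ((eA i : ZMod (2 ^ a * m)).val)
  let y : Fin (s + T.card) → R := fun i => ζ ^ ((eB i : ZMod (2 ^ a * m)).val)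
  by_contra hno
  have hdet : ∀ σ : Perm (Fin (s + T.card)),
      (Matrix.vandermonde (fun i => x (σ i) * y i)).det = 0 := by
    intro σ
    rw [Matrix.det_vandermonde_eq_zero_iff]
    by_contra hcon
    push Not at hcon
    refine hno (exists_map_of_perm A B eA eB σ ?_)
    intro i j hij
    apply hcon i j
    have key : ∀ i, x (σ i) * y i
        = ζ ^ (((eA (σ i) : ZMod (2 ^ a * m)) + (eB i : ZMod (2 ^ a * m))).val) := by
      intro i
      simp only [x, y]
      rw [← pow_add, ZMod.val_add, ← pow_eq_pow_mod _ hζ.pow_eq_one]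
    simp only at hij
    rw [key i, key j, hij]
  have hsum := wsum_det (s := s) (Nat.le_add_right s T.card) x y
  rw [Finset.sum_eq_zero fun σ _ => by rw [hdet σ, mul_zero], ← esy_mul_det (Nat.le_add_right s T.card)] at hsum
  have hx : (Matrix.vandermonde x).det ≠ 0 := by
    rw [Matrix.det_vandermonde_ne_zero_iff]
    intro i j hij
    have h1 := hζ.pow_inj (ZMod.val_lt _) (ZMod.val_lt _) hij
    exact eA.injective (Subtype.ext (ZMod.val_injective _ h1))
  have hprod : esy (s + T.card - s) x * (blockV s y).permanent = 0 := by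
    have h3 : (Matrix.vandermonde x).det * (esy (s + T.card - s) x * (blockV s y).permanent) = 0 := by
      rw [hsum]; ring
    rcases mul_eq_zero.1 h3 with h | h
    · exact absurd h hx
    · exact h
  rw [Nat.add_sub_cancel_left] at hprod
  have hprod2 : esy T.card (fun i => φ (x i)) * (blockV s (fun i => φ (y i))).permanent = 0 := by
    have h := congrArg φ hprod
    rw [map_zero, map_mul] at h
    rw [← h]
    congr 1
    · simp only [esy, map_sum, map_prod]
    · simp only [Matrix.permanent, blockV, Matrix.of_apply, map_sum, map_prod]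
      refine Finset.sum_congr rfl fun σ _ => Finset.prod_congr rfl fun i _ => ?_
      split_ifs <;> simp
  have hxφ : ∀ i, φ (x i) = η ^ ((eA i : ZMod (2 ^ a * m)).val) := fun i => by
    simp only [x, map_pow, hφ]
  have hyφ : ∀ i, φ (y i) = η ^ ((eB i : ZMod (2 ^ a * m)).val) := fun i => by
    simp only [y, map_pow, hφ]
  have hesy : esy T.card (fun i => φ (x i)) ≠ 0 := by
    have hA : A = univ.map ⟨fun i => (eA i : ZMod (2 ^ a * m)), fun i j h => eA.injective (Subtype.ext h)⟩ := by
      ext z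
      simp only [mem_map, mem_univ, true_and, Function.Embedding.coeFn_mk]
      constructor
      · intro hz; exact ⟨eA.symm ⟨z, hz⟩, by simp⟩
      · rintro ⟨i, rfl⟩; exact (eA i).2
    have h4 : esy T.card (fun i => φ (x i)) = ∑ S ∈ powersetCard T.card A, ∏ z ∈ S, η ^ z.val := by
      rw [esy, show powersetCard T.card A = powersetCard T.card
        (univ.map ⟨fun i => (eA i : ZMod (2 ^ a * m)), fun i j h => eA.injective (Subtype.ext h)⟩) by rw [← hA],
        powersetCard_map, sum_map]
      refine Finset.sum_congr rfl fun S _ => ?_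
      simp only [RelEmbedding.coe_toEmbedding, mapEmbedding_apply, prod_map, Function.Embedding.coeFn_mk, hxφ]
    rw [h4]; exact he
  have hdetne : (blockV s (fun i => φ (y i))).permanent ≠ 0 := by
    rw [permanent_eq_det]
    have hη0 : η ≠ 0 := hη.ne_zero hm0.ne'
    refine det_blockV_ne_zero (Nat.le_add_right s T.card) _ (fun i => ?_) (fun i j hi hj hij => ?_)
      (fun i j hi hj hij => ?_)
    · simp only [hyφ]; exact pow_ne_zero _ hη0
    · simp only [hyφ] at hij
      have h5 := cast_eq_of_pow_eq a m hm0 η hη _ _ hij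
      have h6 := h2 (by exact_mod_cast hlow i hi) (by exact_mod_cast hlow j hj) h5
      exact eB.injective (Subtype.ext h6)
    · simp only [hyφ] at hij
      have h5 := cast_eq_of_pow_eq a m hm0 η hη _ _ hij
      have h6 := h1 (by exact_mod_cast hhigh i hi) (by exact_mod_cast hhigh j hj) h5
      exact eB.injective (Subtype.ext h6)
  rcases mul_eq_zero.1 hprod2 with h | h
  · exact hesy h
  · exact hdetne h

end Pool.Agent.H168.SN
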