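import Mathlib
import Pool.Agent.H168.SN.Main2

/-!
# Sets with at most one repeated class, for `n = 2 m`
-/

set_option autoImplicit false

namespace Pool.Agent.H168.SN

open Finset Polynomial

/-- all middle elementary symmetric functions vanish -/
theorem middle_zero (a m : ℕ) (hm : Odd m) (A B : Finset (ZMod (2 ^ a * m))) (hcard : A.card = B.card)
    (b₀ b₁ : ZMod (2 ^ a * m)) (hb₀ : b₀ ∈ B) (hb₁ : b₁ ∈ B) (hne : b₁ ≠ b₀)
    (hb : ZMod.castHom (dvd_mul_left m (2 ^ a)) (ZMod m) b₁ = ZMod.castHom (dvd_mul_left m (2 ^ a)) (ZMod m) b₀)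
    (hB : Set.InjOn (ZMod.castHom (dvd_mul_left m (2 ^ a)) (ZMod m)) ((B.erase b₀ : Finset _) : Set (ZMod (2 ^ a * m))))
    (hno : ¬ ∃ f : ZMod (2 ^ a * m) → ZMod (2 ^ a * m),
      Set.BijOn f (A : Set (ZMod (2 ^ a * m))) (B : Set (ZMod (2 ^ a * m))) ∧
      Set.InjOn (fun z => z + f z) (A : Set (ZMod (2 ^ a * m))))
    (η : AlgebraicClosure (ZMod 2)) (hη : IsPrimitiveRoot η m) (t : ℕ) (ht1 : 1 ≤ t) (ht2 : t + 1 ≤ A.card) :
    (∑ S ∈ powersetCard t A, ∏ z ∈ S, η ^ z.val) = 0 := by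
  classical
  have hc2 : ((B.erase b₀).erase b₁).card = A.card - 2 := by
    rw [card_erase_of_mem (mem_erase.2 ⟨hne, hb₁⟩), card_erase_of_mem hb₀, hcard]; omega
  obtain ⟨T', hT', hT'c⟩ := exists_subset_card_eq (s := (B.erase b₀).erase b₁) (n := t - 1) (by omega)
  have hb₀T' : b₀ ∉ T' := fun h => by
    have := hT' h
    simp at this
  have hTc : (insert b₀ T').card = t := by
    rw [card_insert_of_notMem hb₀T', hT'c]; omega
  have hTB : insert b₀ T' ⊆ B := by
    intro z hz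
    rcases mem_insert.1 hz with rfl | hz
    · exact hb₀
    · exact mem_of_mem_erase (mem_of_mem_erase (hT' hz))
  have hin : ∀ z ∈ T', z ∈ B.erase b₀ := fun z hz => mem_of_mem_erase (hT' hz)
  have hnb : ∀ z ∈ T', ZMod.castHom (dvd_mul_left m (2 ^ a)) (ZMod m) z
      ≠ ZMod.castHom (dvd_mul_left m (2 ^ a)) (ZMod m) b₀ := by
    intro z hz h
    have h1 : z = b₁ := hB (by exact_mod_cast hin z hz) (by exact_mod_cast mem_erase.2 ⟨hne, hb₁⟩) (h.trans hb.symm)
    have h2 := hT' hz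
    rw [h1] at h2
    simp at h2
  by_contra he
  apply hno
  refine main2 a m hm A B (insert b₀ T') hcard hTB ?_ ?_ η hη (by rw [hTc]; exact he)
  · intro u hu v hv huv
    simp only [coe_insert, Set.mem_insert_iff, mem_coe] at hu hv
    rcases hu with rfl | hu <;> rcases hv with rfl | hv
    · rfl
    · exact absurd huv.symm (hnb v hv)
    · exact absurd huv (hnb u hu)
    · exact hB (by exact_mod_cast hin u hu) (by exact_mod_cast hin v hv) huv
  · intro u hu v hv huv
    simp only [coe_sdiff, coe_insert, Set.mem_sdiff, mem_coe, Set.mem_insert_iff, not_or] at hu hv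
    exact hB (by exact_mod_cast mem_erase.2 ⟨hu.2.1, hu.1⟩) (by exact_mod_cast mem_erase.2 ⟨hv.2.1, hv.1⟩) huv

/-- the product polynomial is a binomial -/
theorem prod_eq {G K : Type*} [Field K] (A : Finset G) (x : G → K) (hA : 0 < A.card)
    (h : ∀ t, 1 ≤ t → t + 1 ≤ A.card → (∑ S ∈ powersetCard t A, ∏ z ∈ S, x z) = 0) :
    (∏ z ∈ A, (X + C (x z))) = X ^ A.card + C (∏ z ∈ A, x z) := by
  classical
  have h1 := Multiset.prod_X_add_C_eq_sum_esymm (A.val.map x)
  rw [Multiset.map_map] at h1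
  have h2 : (∏ z ∈ A, (X + C (x z))) = (Multiset.map ((fun r => X + C r) ∘ x) A.val).prod := rfl
  rw [h2, h1, Multiset.card_map, Finset.card_val, Finset.sum_range_succ, Finset.sum_range_eq_add_Ico _ hA]
  have h3 : ∑ j ∈ Ico 1 A.card, C ((Multiset.map x A.val).esymm j) * X ^ (A.card - j) = 0 := by
    refine Finset.sum_eq_zero fun j hj => ?_
    rw [mem_Ico] at hj
    rw [Finset.esymm_map_val, h j hj.1 hj.2, C_0, zero_mul]
  rw [h3, Finset.esymm_map_val, Finset.esymm_map_val]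
  simp

theorem swap_map {G : Type*} [AddCommGroup G] {A B : Finset G}
    (h : ∃ f : G → G, Set.BijOn f (A : Set G) (B : Set G) ∧ Set.InjOn (fun z => z + f z) (A : Set G)) :
    ∃ f : G → G, Set.BijOn f (B : Set G) (A : Set G) ∧ Set.InjOn (fun z => z + f z) (B : Set G) := by
  obtain ⟨f, hf, hinj⟩ := h
  classical
  refine ⟨Function.invFunOn f (A : Set G), ?_, ?_⟩
  · exact (hf.invOn_invFunOn).symm.bijOn (hf.surjOn.mapsTo_invFunOn) hf.mapsTo
  · intro u hu v hv huv
    obtain ⟨z, hz, rfl⟩ := hf.surjOn hu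
    obtain ⟨w, hw, rfl⟩ := hf.surjOn hv
    simp only [hf.invOn_invFunOn.1 hz, hf.invOn_invFunOn.1 hw] at huv
    have : z = w := hinj hz hw (by simpa [add_comm] using huv)
    rw [this]

theorem exists_eta (m : ℕ) (hm : Odd m) : ∃ η : AlgebraicClosure (ZMod 2), IsPrimitiveRoot η m := by
  have : NeZero m := ⟨hm.pos.ne'⟩
  have hmK : NeZero (m : AlgebraicClosure (ZMod 2)) := by
    refine ⟨fun h => ?_⟩
    rw [CharP.cast_eq_zero_iff (AlgebraicClosure (ZMod 2)) 2 m] at h
    exact (Nat.not_even_iff_odd.2 hm) (even_iff_two_dvd.2 h)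
  obtain ⟨η, hη⟩ : ∃ η : AlgebraicClosure (ZMod 2), IsRoot (cyclotomic m (AlgebraicClosure (ZMod 2))) η := by
    apply IsAlgClosed.exists_root
    rw [degree_cyclotomic]
    have := Nat.totient_pos.2 hm.pos
    exact_mod_cast this.ne'
  exact ⟨η, isRoot_cyclotomic_iff.1 hη⟩

/-- if `B` has at most one repeated class modulo `m` and there is no transversal, then `A` is a coset -/
theorem onePair (m : ℕ) (hm : Odd m) (A B : Finset (ZMod (2 ^ 1 * m))) (hcard : A.card = B.card)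
    (b₀ : ZMod (2 ^ 1 * m)) (hb₀ : b₀ ∈ B)
    (hB : Set.InjOn (ZMod.castHom (dvd_mul_left m (2 ^ 1)) (ZMod m)) ((B.erase b₀ : Finset _) : Set (ZMod (2 ^ 1 * m))))
    (hno : ¬ ∃ f : ZMod (2 ^ 1 * m) → ZMod (2 ^ 1 * m),
      Set.BijOn f (A : Set (ZMod (2 ^ 1 * m))) (B : Set (ZMod (2 ^ 1 * m))) ∧
      Set.InjOn (fun z => z + f z) (A : Set (ZMod (2 ^ 1 * m)))) :
    ∃ H : AddSubgroup (ZMod (2 ^ 1 * m)),
      H = (nsmulAddMonoidHom A.card : ZMod (2 ^ 1 * m) →+ ZMod (2 ^ 1 * m)).ker ∧ Even (Nat.card H) ∧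
      ∃ c : ZMod (2 ^ 1 * m), ∀ z : ZMod (2 ^ 1 * m), z ∈ A ↔ z - c ∈ H := by
  classical
  have hm0 : 0 < m := hm.pos
  have hn0 : 0 < 2 ^ 1 * m := by positivity
  have : NeZero (2 ^ 1 * m) := ⟨hn0.ne'⟩
  have : NeZero m := ⟨hm0.ne'⟩
  obtain ⟨η, hη⟩ := exists_eta m hm
  have hη0 : η ≠ 0 := hη.ne_zero hm0.ne'
  have hnB : ¬ Set.InjOn (ZMod.castHom (dvd_mul_left m (2 ^ 1)) (ZMod m)) (B : Set (ZMod (2 ^ 1 * m))) :=
    fun h => hno (main 1 m hm A B hcard h)
  have hnA : ¬ Set.InjOn (ZMod.castHom (dvd_mul_left m (2 ^ 1)) (ZMod m)) (A : Set (ZMod (2 ^ 1 * m))) :=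
    fun h => hno (swap_map (main 1 m hm B A hcard.symm h))
  obtain ⟨b₁, hb₁, hne, hb⟩ : ∃ b₁ ∈ B, b₁ ≠ b₀ ∧
      ZMod.castHom (dvd_mul_left m (2 ^ 1)) (ZMod m) b₁ = ZMod.castHom (dvd_mul_left m (2 ^ 1)) (ZMod m) b₀ := by
    by_contra hcon
    push Not at hcon
    apply hnB
    intro u hu v hv huv
    by_cases h1 : u = b₀
    · by_cases h2 : v = b₀
      · rw [h1, h2]
      · exact absurd (huv.symm.trans (by rw [h1])) (hcon v hv h2)
    · by_cases h2 : v = b₀
      · exact absurd (huv.trans (by rw [h2])) (hcon u hu h1)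
      · exact hB (by exact_mod_cast mem_erase.2 ⟨h1, hu⟩) (by exact_mod_cast mem_erase.2 ⟨h2, hv⟩) huv
  have hk2 : 2 ≤ A.card := by
    rw [hcard]
    exact Finset.one_lt_card.2 ⟨b₁, hb₁, b₀, hb₀, hne⟩
  have hmid := middle_zero 1 m hm A B hcard b₀ b₁ hb₀ hb₁ hne hb hB hno η hη
  have hP := prod_eq A (fun z => η ^ z.val) (by omega) hmid
  have hroot : ∀ z ∈ A, (η ^ z.val) ^ A.card = ∏ w ∈ A, η ^ w.val := by
    intro z hz
    have h1 := congrArg (Polynomial.eval (η ^ z.val)) hP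
    rw [Polynomial.eval_prod, Finset.prod_eq_zero hz (by simp [CharTwo.add_self_eq_zero])] at h1
    simp only [eval_add, eval_pow, eval_X, eval_C] at h1
    exact (CharTwo.add_eq_zero.1 h1.symm)
  have hkey : ∀ z ∈ A, ∀ w ∈ A, A.card * z.val ≡ A.card * w.val [MOD m] := by
    intro z hz w hw
    have h1 : η ^ (z.val * A.card) = η ^ (w.val * A.card) := by
      rw [pow_mul, pow_mul, hroot z hz, hroot w hw]
    rw [pow_eq_pow_mod _ hη.pow_eq_one, pow_eq_pow_mod (w.val * A.card) hη.pow_eq_one] at h1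
    have h2 := hη.pow_inj (Nat.mod_lt _ hm0) (Nat.mod_lt _ hm0) h1
    rw [mul_comm A.card, mul_comm A.card]
    exact h2
  rcases Nat.even_or_odd A.card with hk | hk
  · -- even size
    obtain ⟨k', hk'⟩ := hk
    have hz2 : ∀ z ∈ A, ∀ w ∈ A, A.card • (z - w) = 0 := by
      intro z hz w hw
      have h1 : (2 * k') * z.val ≡ (2 * k') * w.val [MOD m] := by
        have := hkey z hz w hw
        rwa [hk', ← two_mul] at this
      have h2 : k' * z.val ≡ k' * w.val [MOD m] := by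
        rw [mul_assoc, mul_assoc] at h1
        exact Nat.ModEq.cancel_left_of_coprime (Nat.Coprime.symm (Nat.coprime_two_left.2 hm)) h1
      have h3 : (2 * (k' * z.val)) ≡ (2 * (k' * w.val)) [MOD (2 * m)] := Nat.ModEq.mul_left' 2 h2
      have h4 : ((2 * (k' * z.val) : ℕ) : ZMod (2 ^ 1 * m)) = ((2 * (k' * w.val) : ℕ) : ZMod (2 ^ 1 * m)) := by
        rw [ZMod.natCast_eq_natCast_iff]
        simpa using h3
      have h5 : ∀ u : ZMod (2 ^ 1 * m), ((2 * (k' * u.val) : ℕ) : ZMod (2 ^ 1 * m)) = A.card • u := by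
        intro u
        rw [hk', nsmul_eq_mul]
        push_cast
        rw [ZMod.natCast_zmod_val]
        ring
      rw [smul_sub, ← h5, ← h5, h4, sub_self]
    obtain ⟨c, hc⟩ : ∃ c, c ∈ A := Finset.card_pos.1 (by omega)
    refine ⟨(nsmulAddMonoidHom A.card : ZMod (2 ^ 1 * m) →+ ZMod (2 ^ 1 * m)).ker, rfl, ?_, c, ?_⟩
    all_goals
      have hle : (univ.filter fun z : ZMod (2 ^ 1 * m) => A.card • z = 0).card ≤ A.card :=
        IsAddCyclic.card_nsmul_eq_zero_le (by omega)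
      have himg : A.image (fun z => z - c) = univ.filter fun z : ZMod (2 ^ 1 * m) => A.card • z = 0 := by
        apply Finset.eq_of_subset_of_card_le
        · intro u hu
          obtain ⟨z, hz, rfl⟩ := mem_image.1 hu
          rw [mem_filter]
          exact ⟨mem_univ _, hz2 z hz c hc⟩
        · rw [card_image_of_injective _ (sub_left_injective)]
          exact hle
    · have h6 : Nat.card (nsmulAddMonoidHom A.card : ZMod (2 ^ 1 * m) →+ ZMod (2 ^ 1 * m)).ker
          = (univ.filter fun z : ZMod (2 ^ 1 * m) => A.card • z = 0).card := by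
        rw [Nat.card_eq_fintype_card, ← Fintype.card_subtype]
        exact Fintype.card_congr (Equiv.subtypeEquivRight fun z => by simp [AddMonoidHom.mem_ker])
      rw [h6, ← himg, card_image_of_injective _ (sub_left_injective)]
      exact ⟨k', hk'⟩
    · intro z
      rw [AddMonoidHom.mem_ker, nsmulAddMonoidHom_apply]
      have h7 := Finset.ext_iff.1 himg (z - c)
      rw [mem_filter, mem_image] at h7
      constructor
      · intro hz
        exact (h7.1 ⟨z, hz, rfl⟩).2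
      · intro hz
        obtain ⟨w, hw, hwz⟩ := h7.2 ⟨mem_univ _, hz⟩
        rw [← sub_left_injective hwz]; exact hw
  · -- odd size: `A` is injective modulo `m`
    exfalso
    apply hnA
    intro z hz w hw hzw
    by_contra hzw'
    have hr : η ^ z.val = η ^ w.val := by
      have h1 : (z.val : ZMod m) = (w.val : ZMod m) := by
        rw [ZMod.natCast_val, ZMod.natCast_val]
        simpa [ZMod.castHom_apply] using hzw
      have h2 := (ZMod.natCast_eq_natCast_iff' _ _ _).1 h1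
      rw [pow_eq_pow_mod _ hη.pow_eq_one, pow_eq_pow_mod w.val hη.pow_eq_one, h2]
    have h3 : (∏ u ∈ A, (X + C (η ^ u.val)))
        = (X + C (η ^ z.val)) * ((X + C (η ^ z.val)) * ∏ u ∈ (A.erase z).erase w, (X + C (η ^ u.val))) := by
      rw [← Finset.mul_prod_erase A _ hz, ← Finset.mul_prod_erase (A.erase z) _ (mem_erase.2 ⟨fun h => hzw' h.symm, hw⟩), hr]
    rw [h3] at hP
    have h4 := congrArg (fun p => Polynomial.eval (η ^ z.val) (Polynomial.derivative p)) hP
    simp only [derivative_mul, derivative_add, derivative_X, derivative_C, derivative_X_pow, eval_add, eval_mul,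
      eval_X, eval_C, eval_pow, CharTwo.add_self_eq_zero, zero_mul, mul_zero, add_zero, eval_natCast, map_natCast] at h4
    have h5 : ((A.card : ℕ) : AlgebraicClosure (ZMod 2)) ≠ 0 := by
      intro h
      rw [CharP.cast_eq_zero_iff (AlgebraicClosure (ZMod 2)) 2] at h
      exact (Nat.not_even_iff_odd.2 hk) (even_iff_two_dvd.2 h)
    exact (mul_ne_zero h5 (pow_ne_zero _ (pow_ne_zero _ hη0))) h4.symm

end Pool.Agent.H168.SN
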